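import Pool.Agent.Helper92.Orb.Defs
import Pool.Agent.Helper16.Abund.Defs3
import Pool.Agent.Helper16.Abund.Torus1

/-!
Quotients of a family of complex tori over a domain.
-/

open scoped Manifold ContDiff ENNReal Topology
open MeasureTheory

namespace Pool.Agent.Helper92.Orb

open Pool.Agent.Helper16.Abund

/-- The differential of the map `T : M → M` at `x` in the preferred charts. -/
noncomputable def tmap (n : ℕ) {M : Type*} [TopologicalSpace M] [ChartedSpace (Fin n → ℂ) M]
    (T : M → M) (x : M) : (Fin n → ℂ) →L[ℂ] (Fin n → ℂ) :=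
  mfderiv 𝓘(ℂ, Fin n → ℂ) 𝓘(ℂ, Fin n → ℂ) T x

/-- The differential of the map `T : M → M` at `x` applied to the tangent vector `u`. -/
noncomputable def tvec (n : ℕ) {M : Type*} [TopologicalSpace M] [ChartedSpace (Fin n → ℂ) M]
    (T : M → M) (x : M) (u : Fin n → ℂ) : Fin n → ℂ :=
  tmap n T x u

/-- The Hermitian metric `g` (given by its matrix in the preferred chart at each point) is invariant
under the map `T`. -/
def InvMetric (n : ℕ) {M : Type*} [TopologicalSpace M] [ChartedSpace (Fin n → ℂ) M]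
    (g : M → Matrix (Fin n) (Fin n) ℂ) (T : M → M) : Prop :=
  ∀ (x : M) (u v : Fin n → ℂ), herm (g (T x)) (tvec n T x u) (tvec n T x v) = herm (g x) u v

section

variable {b : ℕ} {D : Set (Fin b → ℂ)}

/-- The complex manifold `D × ℂᵏ`. -/
def TorTube (hD : IsOpen D) (k : ℕ) : Type := tube D hD k

instance instTopTorTube (hD : IsOpen D) (k : ℕ) : TopologicalSpace (TorTube hD k) :=
  inferInstanceAs (TopologicalSpace (tube D hD k))

noncomputable instance instChartTorTube (hD : IsOpen D) (k : ℕ) :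
    ChartedSpace (Fin (b + k) → ℂ) (TorTube hD k) :=
  inferInstanceAs (ChartedSpace (Fin (b + k) → ℂ) (tube D hD k))

/-- The lattice translation `(z, w) ↦ (z, w + Λ(z) m)` of `D × ℂᵏ`. -/
noncomputable def latShift (hD : IsOpen D) {k : ℕ} (Λ : (Fin b → ℂ) → Fin (2 * k) → Fin k → ℂ)
    (m : Fin (2 * k) → ℤ) : TorTube hD k → TorTube hD k :=
  act hD Λ m

/-- The family of complex tori `ℂᵏ / Λ(z) ℤ²ᵏ`, `z ∈ D`, is Kähler: `D × ℂᵏ` has a Kähler metric
which is invariant under the lattice translations. -/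
def KahlerTorusFamily (hD : IsOpen D) {k : ℕ} (Λ : (Fin b → ℂ) → Fin (2 * k) → Fin k → ℂ) :
    Prop :=
  ∃ g : TorTube hD k → Matrix (Fin (b + k)) (Fin (b + k)) ℂ,
    KahlerMetric (b + k) (TorTube hD k) g ∧ ∀ m, InvMetric (b + k) g (latShift hD Λ m)

/-- Each lattice translation `(z, w) ↦ (z, w + Λ(z) m)` of `D × ℂᵏ` is the action of some element
of `Γ`. -/
def ContainsLattice (hD : IsOpen D) {k : ℕ} (Λ : (Fin b → ℂ) → Fin (2 * k) → Fin k → ℂ)
    (Γ : Type*) [Group Γ] [MulAction Γ (TorTube hD k)] : Prop :=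
  ∀ m : Fin (2 * k) → ℤ, ∃ γ : Γ, ∀ y : TorTube hD k, γ • y = latShift hD Λ m y

end

end Pool.Agent.Helper92.Orb
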