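import Pool.Agent.Helper92.Orb.Family

/-!
The trace of an `H`-invariant form to a `Γ`-invariant form.
-/

open scoped Manifold ContDiff ENNReal Topology
open MeasureTheory Metric

namespace Pool.Agent.Helper92.Orb

open Pool.Agent.Helper16.Abund

universe u v

variable {n : ℕ} {Γ : Type v} {M : Type u} [Group Γ] [MulAction Γ M] [TopologicalSpace M]
  [ChartedSpace (Fin n → ℂ) M]

theorem jac_smul_mul (hΓ : ∀ γ : Γ, MDifferentiable 𝓘(ℂ, Fin n → ℂ) 𝓘(ℂ, Fin n → ℂ)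
    (fun x : M => γ • x)) (a b : Γ) (x : M) :
    jac n (fun y : M => (a * b) • y) x =
      jac n (fun y : M => a • y) (b • x) * jac n (fun y : M => b • y) x := by
  have h := jac_comp (n := n) (g := fun y : M => a • y) (f := fun y : M => b • y) (x := x)
    (hΓ a (b • x)) (hΓ b x)
  rw [← h]
  congr 1
  funext y
  simp only [Function.comp_apply]
  rw [mul_smul]

theorem jac_smul_one (x : M) : jac n (fun y : M => (1 : Γ) • y) x = 1 := by
  have : (fun y : M => (1 : Γ) • y) = id := by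
    funext y
    simp
  rw [this, jac_id]

theorem jac_smul_ne_zero (hΓ : ∀ γ : Γ, MDifferentiable 𝓘(ℂ, Fin n → ℂ) 𝓘(ℂ, Fin n → ℂ)
    (fun x : M => γ • x)) (a : Γ) (x : M) : jac n (fun y : M => a • y) x ≠ 0 := by
  have h := jac_smul_mul hΓ a⁻¹ a x
  rw [inv_mul_cancel, jac_smul_one] at h
  intro h0
  rw [h0, mul_zero] at h
  exact one_ne_zero h

theorem translate_mul (hΓ : ∀ γ : Γ, MDifferentiable 𝓘(ℂ, Fin n → ℂ) 𝓘(ℂ, Fin n → ℂ)
    (fun x : M => γ • x)) (m : ℕ) (η : M → ℂ) (g γ : Γ) (x : M) :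
    translate n m η g (γ • x) * jac n (fun y : M => γ • y) x ^ m =
      translate n m η (γ⁻¹ * g) x := by
  unfold translate
  have e : (γ⁻¹ * g)⁻¹ = g⁻¹ * γ := by group
  rw [e, jac_smul_mul hΓ g⁻¹ γ x, mul_smul, mul_pow]
  ring

/-- The translate depends only on the coset. -/
theorem translate_coset (hΓ : ∀ γ : Γ, MDifferentiable 𝓘(ℂ, Fin n → ℂ) 𝓘(ℂ, Fin n → ℂ)
    (fun x : M => γ • x)) {H : Subgroup Γ} {m : ℕ} {η : M → ℂ} (hη : InvForm n H m η)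
    {a b : Γ} (h : (a : Γ ⧸ H) = b) (x : M) : translate n m η a x = translate n m η b x := by
  have hab : a⁻¹ * b ∈ H := QuotientGroup.eq.1 h
  set k := (a⁻¹ * b)⁻¹ with hk
  have hkH : k ∈ H := H.inv_mem hab
  have hb : b⁻¹ = k * a⁻¹ := by rw [hk]; group
  unfold translate
  rw [hb, jac_smul_mul hΓ k a⁻¹ x, mul_smul, mul_pow, ← mul_assoc, hη.2 k hkH]

theorem isPluriForm_translate (hΓ : ∀ γ : Γ, MDifferentiable 𝓘(ℂ, Fin n → ℂ) 𝓘(ℂ, Fin n → ℂ)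
    (fun x : M => γ • x)) {m : ℕ} {η : M → ℂ} (hη : IsPluriForm n M m η) (g : Γ) :
    IsPluriForm n M m (translate n m η g) := hη.pullback (hΓ g⁻¹)

/-- **The trace**: from an `H`-invariant `L^q` form to a `Γ`-invariant form. -/
theorem exists_invForm_of_Lq [IsManifold 𝓘(ℂ, Fin n → ℂ) ω M] (hΓ : ∀ γ : Γ,
    MDifferentiable 𝓘(ℂ, Fin n → ℂ) 𝓘(ℂ, Fin n → ℂ) (fun x : M => γ • x))
    {x : M} (h : LqGeneratedAt n Γ x) :
    ∃ ℓ : ℕ, 1 ≤ ℓ ∧ ∃ c : M → ℂ, InvForm n (⊤ : Subgroup Γ) ℓ c ∧ c x ≠ 0 := by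
  obtain ⟨H, m, q, η, hm, hq, hη, hLq, hx⟩ := h
  let f : Γ ⧸ H → M → ℂ := fun c => translate n m η c.out
  have hf : ∀ c, IsPluriForm n M m (f c) := fun c => isPluriForm_translate hΓ hη.1 _
  have hfL : FamLq n m q f := hLq
  have hsum := summable_fam hf hq hfL x
  have hf1 : f ((1 : Γ) : Γ ⧸ H) x = η x := by
    have h1 : f ((1 : Γ) : Γ ⧸ H) x = translate n m η (1 : Γ) x :=
      translate_coset hΓ hη (QuotientGroup.out_eq' _) x
    rw [h1]
    unfold translate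
    rw [inv_one, one_smul, jac_smul_one, one_pow, mul_one]
  obtain ⟨k, hk, hkb⟩ := exists_powerSum (a := fun c => f c x) hq hsum ((1 : Γ) : Γ ⧸ H)
    (⌈q⌉₊ + 1)
  have hqk : q ≤ k := by
    calc q ≤ (⌈q⌉₊ : ℝ) := Nat.le_ceil q
      _ ≤ ((⌈q⌉₊ + 1 : ℕ) : ℝ) := by push_cast; linarith
      _ ≤ k := by exact_mod_cast hk
  refine ⟨m * k, Nat.mul_pos hm (by omega), fun y => ∑' c, f c y ^ k,
    ⟨isPluriForm_tsum_pow hf hq hfL hqk, ?_⟩, ?_⟩
  · intro γ _ y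
    have e : ∀ c : Γ ⧸ H, f c (γ • y) * jac n (fun y : M => γ • y) y ^ m = f (γ⁻¹ • c) y := by
      intro c
      have h1 : f c (γ • y) * jac n (fun y : M => γ • y) y ^ m =
          translate n m η (γ⁻¹ * c.out) y := translate_mul hΓ m η c.out γ y
      rw [h1]
      refine translate_coset hΓ hη ?_ y
      have h2 : ((γ⁻¹ * c.out : Γ) : Γ ⧸ H) = γ⁻¹ • ((c.out : Γ) : Γ ⧸ H) := rfl
      have h3 : ((c.out : Γ) : Γ ⧸ H) = c := QuotientGroup.out_eq' c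
      have h4 : (((γ⁻¹ • c).out : Γ) : Γ ⧸ H) = γ⁻¹ • c := QuotientGroup.out_eq' _
      rw [h2, h3, h4]
    calc (∑' c, f c (γ • y) ^ k) * jac n (fun y : M => γ • y) y ^ (m * k)
        = ∑' c, (f c (γ • y) * jac n (fun y : M => γ • y) y ^ m) ^ k := by
          rw [← tsum_mul_right]
          congr 1
          funext c
          rw [pow_mul, ← mul_pow]
      _ = ∑' c : Γ ⧸ H, f (γ⁻¹ • c) y ^ k := by simp only [e]
      _ = ∑' c, f c y ^ k := (MulAction.toPerm γ⁻¹ : Equiv.Perm (Γ ⧸ H)).tsum_eq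
          (fun c => f c y ^ k)
  · have h1 : 0 < ‖f ((1 : Γ) : Γ ⧸ H) x‖ ^ k := by
      apply pow_pos
      rw [norm_pos_iff, hf1]
      exact hx
    have h2 : 0 < ‖∑' c, f c x ^ k‖ := by
      have h3 : ‖f ((1 : Γ) : Γ ⧸ H) x‖ ^ k ≤ 2 * ‖∑' c, f c x ^ k‖ := hkb
      linarith
    exact norm_pos_iff.1 h2

theorem InvForm.pow {H : Subgroup Γ} {m : ℕ} {c : M → ℂ} (hc : InvForm n H m c) (k : ℕ) :
    InvForm n H (m * k) (fun x => c x ^ k) := by
  refine ⟨hc.1.pow k, ?_⟩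
  intro γ hγ x
  rw [pow_mul, ← mul_pow, hc.2 γ hγ x]

/-- Compactness. -/
theorem orbSemiample_of_pointwise [IsManifold 𝓘(ℂ, Fin n → ℂ) ω M] (hΓ : OrbAction n Γ M)
    (h : ∀ x : M, ∃ ℓ : ℕ, 1 ≤ ℓ ∧ ∃ c : M → ℂ, InvForm n (⊤ : Subgroup Γ) ℓ c ∧ c x ≠ 0) :
    OrbSemiample n Γ M := by
  classical
  obtain ⟨K, hK, hKc⟩ := hΓ.cocompact
  choose ℓ hℓ c hc hcx using h
  obtain ⟨t, -, ht⟩ := hK.elim_nhds_subcover (fun x => {y | c x y ≠ 0})
    fun x _ => (hc x).1.isOpen_ne_zero.mem_nhds (hcx x)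
  refine ⟨∏ x ∈ t, ℓ x, Finset.one_le_prod' fun x _ => hℓ x, ?_⟩
  intro y
  obtain ⟨γ, hγ⟩ := hKc y
  have hy := ht hγ
  obtain ⟨x, hxt, hxy⟩ : ∃ x ∈ t, c x (γ • y) ≠ 0 := by simpa using hy
  have hxy' : c x y ≠ 0 := by
    rw [← (hc x).2 γ (Subgroup.mem_top γ) y]
    exact mul_ne_zero hxy (pow_ne_zero _ (jac_smul_ne_zero hΓ.holo γ y))
  refine ⟨fun y => c x y ^ (∏ x' ∈ t.erase x, ℓ x'), ?_, pow_ne_zero _ hxy'⟩
  rw [← Finset.mul_prod_erase t ℓ hxt]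
  exact (hc x).pow _

/-- A pull back of an invariant form under an equivariant map is invariant. -/
theorem InvForm.pullback_equivariant {Δ : Type*} {Z : Type*} [Group Δ] [MulAction Δ Z]
    [TopologicalSpace Z] [ChartedSpace (Fin n → ℂ) Z]
    (hΓ : ∀ γ : Γ, MDifferentiable 𝓘(ℂ, Fin n → ℂ) 𝓘(ℂ, Fin n → ℂ) (fun x : M => γ • x))
    (hΔ : ∀ δ : Δ, MDifferentiable 𝓘(ℂ, Fin n → ℂ) 𝓘(ℂ, Fin n → ℂ) (fun x : Z => δ • x))
    {H : Subgroup Γ} {m : ℕ} {s : Z → ℂ} (hs : InvForm n (⊤ : Subgroup Δ) m s) {g : M → Z}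
    (hg : MDifferentiable 𝓘(ℂ, Fin n → ℂ) 𝓘(ℂ, Fin n → ℂ) g) {φ : Γ → Δ}
    (hφ : ∀ h ∈ H, ∀ y : M, g (h • y) = φ h • g y) :
    InvForm n H m (fun y => s (g y) * jac n g y ^ m) := by
  refine ⟨hs.1.pullback hg, ?_⟩
  intro h hh x
  have e : jac n g (h • x) * jac n (fun y : M => h • y) x =
      jac n (fun y : Z => φ h • y) (g x) * jac n g x := by
    have h1 := jac_comp (n := n) (g := g) (f := fun y : M => h • y) (x := x) (hg (h • x)) (hΓ h x)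
    have h2 := jac_comp (n := n) (g := fun y : Z => φ h • y) (f := g) (x := x) (hΔ (φ h) (g x))
      (hg x)
    rw [← h1, ← h2]
    congr 1
    funext y
    exact hφ h hh y
  have h3 := hs.2 (φ h) (Subgroup.mem_top _) (g x)
  calc s (g (h • x)) * jac n g (h • x) ^ m * jac n (fun y : M => h • y) x ^ m
      = s (φ h • g x) * (jac n g (h • x) * jac n (fun y : M => h • y) x) ^ m := by
        rw [hφ h hh, mul_pow]
        ring
    _ = s (φ h • g x) * jac n (fun y : Z => φ h • y) (g x) ^ m * jac n g x ^ m := by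
        rw [e, mul_pow]
        ring
    _ = s (g x) * jac n g x ^ m := by rw [h3]

theorem transferAt_of_orbSemiample (hM : IsManifold 𝓘(ℂ, Fin n → ℂ) ω M) (hΓ : OrbAction n Γ M)
    (h : OrbSemiample n Γ M) (x : M) : TransferAt n Γ x := by
  obtain ⟨m, hm, h⟩ := h
  obtain ⟨c, hc, hcx⟩ := h x
  refine ⟨⊤, Γ, M, inferInstance, inferInstance, inferInstance, inferInstance, hM, id, id, m, 1,
    c, hΓ, mdifferentiable_id, fun _ _ _ => rfl, ?_, hm, hc, ?_, hcx⟩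
  · intro z T hT hT2
    rw [Finset.card_le_one]
    intro a ha b hb
    obtain ⟨δ, hδ⟩ := hT a ha
    obtain ⟨δ', hδ'⟩ := hT b hb
    simp only [id] at hδ hδ'
    refine hT2 a ha b hb (δ' * δ⁻¹) (Subgroup.mem_top _) ?_
    rw [hδ, hδ', mul_smul, inv_smul_smul]
  · rw [jac_id]
    exact one_ne_zero

end Pool.Agent.Helper92.Orb
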