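import Pool.Agent.Helper92.Orb.Defs
import Pool.Agent.Helper16.Abund.Basic
import Pool.Agent.Helper36.Abund.Area

/-!
Exact statements of the two packets (as `Prop`s).
-/

open scoped Manifold ContDiff ENNReal Topology
open MeasureTheory

namespace Pool.Agent.Helper92.Orb

open Pool.Agent.Helper16.Abund

universe u v

/-- Packet P1. -/
def StmtCosetLqOfMassMod : Prop :=
  ∀ {n m : ℕ} (_ : 1 ≤ m) {Γ : Type v} {M : Type u} [Group Γ] [MulAction Γ M] [TopologicalSpace M]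
    [ChartedSpace (Fin n → ℂ) M] [IsManifold 𝓘(ℂ, Fin n → ℂ) ω M] (_ : OrbAction n Γ M)
    {H : Subgroup Γ} {η : M → ℂ} (_ : InvForm n H m η) (_ : MassMod n H m η),
    CosetLq n H m (2 / (m : ℝ)) η

/-- Packet P2. -/
def StmtMassModPullback : Prop :=
  ∀ {n m N : ℕ} (_ : 1 ≤ m) {Γ Δ : Type v} {M Z : Type u} [Group Γ] [MulAction Γ M] [Group Δ]
    [MulAction Δ Z] [TopologicalSpace M] [ChartedSpace (Fin n → ℂ) M]
    [IsManifold 𝓘(ℂ, Fin n → ℂ) ω M] [TopologicalSpace Z] [ChartedSpace (Fin n → ℂ) Z]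
    [IsManifold 𝓘(ℂ, Fin n → ℂ) ω Z] (_ : OrbAction n Δ Z) (H : Subgroup Γ) {g : M → Z}
    (_ : MDifferentiable 𝓘(ℂ, Fin n → ℂ) 𝓘(ℂ, Fin n → ℂ) g)
    (_ : ∀ (z : Z) (T : Finset M), (∀ y ∈ T, ∃ δ : Δ, g y = δ • z) →
      (∀ y ∈ T, ∀ y' ∈ T, ∀ h ∈ H, y' = h • y → y = y') → T.card ≤ N)
    {s : Z → ℂ} (_ : InvForm n (⊤ : Subgroup Δ) m s),
    MassMod n H m (fun y => s (g y) * jac n g y ^ m)

end Pool.Agent.Helper92.Orb
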