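import Pool.Agent.Helper92.Orb.Defs
import Pool.Agent.Helper16.Abund.Basic
import Pool.Agent.Helper36.Abund.Area
import Pool.Agent.Helper10.Abund.OpenSub

/-!
Exact statement of packet P3 (as a `Prop`).
-/

open scoped Manifold ContDiff ENNReal Topology
open MeasureTheory

namespace Pool.Agent.Helper92.Orb

open Pool.Agent.Helper16.Abund

universe u v

/-- Packet P3: finite mass over a fundamental set gives finite mass modulo `H`, for an open subset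
`W` of `ℂⁿ`. -/
def StmtMassModOfFund : Prop :=
  ∀ {n m : ℕ} (_ : 1 ≤ m) {Γ : Type v} [Group Γ] (W : TopologicalSpace.Opens (Fin n → ℂ))
    [MulAction Γ W]
    (_ : ∀ γ : Γ, MDifferentiable 𝓘(ℂ, Fin n → ℂ) 𝓘(ℂ, Fin n → ℂ) (fun x : W => γ • x))
    {H : Subgroup Γ} {F : Set (Fin n → ℂ)} (_ : MeasurableSet F) (_ : F ⊆ (W : Set (Fin n → ℂ)))
    (h : ℕ → Γ) (_ : ∀ j, h j ∈ H) (_ : ∀ y : W, ∃ j, ((h j • y : W) : Fin n → ℂ) ∈ F)
    (_ : ∀ y y' : W, (y : Fin n → ℂ) ∈ F → (y' : Fin n → ℂ) ∈ F → ∀ γ ∈ H, y' = γ • y → y = y')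
    {f : (Fin n → ℂ) → ℂ} (_ : DifferentiableOn ℂ f W)
    (_ : ∫⁻ v in F, ENNReal.ofReal (‖f v‖ ^ (2 / (m : ℝ))) < ⊤)
    (_ : InvForm n H m (fun y : W => f y.1)),
    MassMod n H m (fun y : W => f y.1)

end Pool.Agent.Helper92.Orb
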