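import Pool.Agent.Helper92.Orb.TorusDefs
import Pool.Agent.Helper92.Orb.Group
import Pool.Agent.Helper92.Orb.Packets
import Pool.Agent.Helper92.Orb.Packets2
import Pool.Agent.Helper16.Abund.Torus3

/-!
Quotients of a Kähler family of complex tori over a domain of finite mass.
-/

open scoped Manifold ContDiff ENNReal Topology ComplexConjugate ComplexOrder
open MeasureTheory Metric

namespace Pool.Agent.Helper92.Orb

open Pool.Agent.Helper16.Abund
open Pool.Agent.Helper10.Abund (jac_shift jac_open_comp isPluriForm_restrict)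
open Pool.Agent.Helper24.Abund (fund_mass)
open Pool.Agent.Helper81.Abund (kappa_const)
open Pool.Agent.Helper83.Abund (det_le_of_symplectic)
open Pool.Agent.Helper11.Abund (exists_kahOp kahForm_comp exists_average)

universe v

variable {b k : ℕ}

/-- Symplectic comparison, with a Kähler form that is only invariant under the lattice. -/
theorem det_bound_inv {X : Type*} [TopologicalSpace X]
    [ChartedSpace (Fin (b + k) → ℂ) X]
    {D : Set (Fin b → ℂ)} (hD : IsOpen D) (hDc : IsPreconnected D)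
    {Λ : (Fin b → ℂ) → Fin (2 * k) → Fin k → ℂ}
    (hΛ : DifferentiableOn ℂ Λ D) (hind : ∀ z ∈ D, LinearIndependent ℝ (Λ z))
    {g : X → Matrix (Fin (b + k)) (Fin (b + k)) ℂ} (hg : IsKahler (b + k) X g)
    {ψ : (Fin (b + k) → ℂ) → X}
    (hψ : MDifferentiableOn 𝓘(ℂ, Fin (b + k) → ℂ) 𝓘(ℂ, Fin (b + k) → ℂ) ψ (tube D hD k))
    (hj : ∀ v ∈ tube D hD k, jac (b + k) ψ v ≠ 0)
    (hper : ∀ (m : Fin (2 * k) → ℤ), ∀ v ∈ tube D hD k, ∀ x y : Fin (b + k) → ℂ,
      kahForm (b + k) g (ψ ∘ shift Λ (fun l => (m l : ℝ))) v x y = kahForm (b + k) g ψ v x y)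
    {z₁ : Fin b → ℂ} (hz₁ : z₁ ∈ D) {z : Fin b → ℂ} (hz : z ∈ D) :
    LinearMap.det (clin (latMap (hind z₁ hz₁) z)) ≠ 0 ∧
      |LinearMap.det (latMap (hind z₁ hz₁) z)| ≤
        ‖LinearMap.det (clin (latMap (hind z₁ hz₁) z))‖ ^ 2 := by
  obtain ⟨Ω, hΩ, hΩk, halt, hcl⟩ := exists_kahOp hg (tube D hD k).isOpen hψ
  have hinv : ∀ v ∈ tube D hD k, ∀ (m : Fin (2 * k) → ℤ), ∀ x y : Fin (b + k) → ℂ,
      Ω (shift Λ (fun l => (m l : ℝ)) v) (fderiv ℂ (shift Λ (fun l => (m l : ℝ))) v x)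
        (fderiv ℂ (shift Λ (fun l => (m l : ℝ))) v y) = Ω v x y := by
    intro v hv m x y
    obtain ⟨h1, h2, -⟩ := jac_shift hD hΛ (fun l => (m l : ℝ)) hv
    rw [hΩk _ h2, hΩk _ hv, ← kahForm_comp g (hψ.mdifferentiableAt
      ((tube D hD k).isOpen.mem_nhds h2)) h1]
    exact hper m v hv x y
  obtain ⟨A₁, hA₁, hA₁k⟩ := exists_average (Λ := Λ) hg hD hψ hj hz₁
  obtain ⟨A, hA, hAk⟩ := exists_average (Λ := Λ) hg hD hψ hj hz
  refine det_le_of_symplectic hA₁ hA (latMap (hind z₁ hz₁) z) ?_ _ fun u => rfl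
  intro u v
  set s : Fin (2 * k) → ℝ := fun l => (latBasis (hind z₁ hz₁)).repr u l with hs
  set t : Fin (2 * k) → ℝ := fun l => (latBasis (hind z₁ hz₁)).repr v l with ht
  have hu : comb Λ z₁ s = u := comb_repr (hind z₁ hz₁) u
  have hv : comb Λ z₁ t = v := comb_repr (hind z₁ hz₁) v
  have hu' : latMap (hind z₁ hz₁) z u = comb Λ z s := by rw [← hu, latMap_comb]
  have hv' : latMap (hind z₁ hz₁) z v = comb Λ z t := by rw [← hv, latMap_comb]
  rw [hu', hv', ← hu, ← hv, hAk, hA₁k]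
  have key := kappa_const hD hDc hΛ hΩ halt hcl hinv hz hz₁ s t
  have e : ∀ (z' : Fin b → ℂ), z' ∈ D → ∀ (x y : Fin (b + k) → ℂ),
      ∫ θ in Set.pi Set.univ (fun _ : Fin (2 * k) => Set.Icc (0 : ℝ) 1),
        kahForm (b + k) g ψ (Fin.append z' (comb Λ z' θ)) x y =
      ∫ θ in Set.pi Set.univ (fun _ : Fin (2 * k) => Set.Icc (0 : ℝ) 1),
        Ω (Fin.append z' (comb Λ z' θ)) x y := by
    intro z' hz' x y
    congr 1
    funext θ
    refine (hΩk _ ?_ _ _).symm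
    change base (Fin.append z' (comb Λ z' θ)) ∈ D
    rw [base_append]
    exact hz'
  rw [e z hz, e z₁ hz₁]
  exact key

/-- The subgroup of `Γ` acting by lattice translations. -/
def latSub {D : Set (Fin b → ℂ)} (hD : IsOpen D) (Λ : (Fin b → ℂ) → Fin (2 * k) → Fin k → ℂ)
    (Γ : Type v) [Group Γ] [MulAction Γ (tube D hD k)] : Subgroup Γ where
  carrier := {γ | ∃ m : Fin (2 * k) → ℤ, ∀ y : tube D hD k, γ • y = act hD Λ m y}
  one_mem' := ⟨0, fun y => by rw [one_smul, act_zero]⟩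
  mul_mem' := by
    rintro a b ⟨m, hm⟩ ⟨m', hm'⟩
    exact ⟨m + m', fun y => by rw [mul_smul, hm', hm, act_add]⟩
  inv_mem' := by
    rintro a ⟨m, hm⟩
    refine ⟨-m, fun y => ?_⟩
    rw [inv_smul_eq_iff, hm, ← act_add, add_neg_cancel, act_zero]

/-- The extension of the identity of the tube. -/
theorem exists_extend {D : Set (Fin b → ℂ)} (hD : IsOpen D) (y₁ : tube D hD k) :
    ∃ ψ : (Fin (b + k) → ℂ) → tube D hD k, (∀ y : tube D hD k, ψ y.1 = y) ∧
      MDifferentiableOn 𝓘(ℂ, Fin (b + k) → ℂ) 𝓘(ℂ, Fin (b + k) → ℂ) ψ (tube D hD k) ∧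
      ∀ v ∈ tube D hD k, jac (b + k) ψ v = 1 := by
  classical
  let ψ : (Fin (b + k) → ℂ) → tube D hD k := fun v => if h : v ∈ tube D hD k then ⟨v, h⟩ else y₁
  have hψP : ∀ y : tube D hD k, ψ y.1 = y := fun y => dif_pos y.2
  obtain ⟨hψ, hψj⟩ := jac_open_comp (tube D hD k) (p := id) mdifferentiable_id hψP
  refine ⟨ψ, hψP, hψ, fun v hv => ?_⟩
  rw [hψj ⟨v, hv⟩, jac_id]

theorem jac_act {D : Set (Fin b → ℂ)} (hD : IsOpen D)
    {Λ : (Fin b → ℂ) → Fin (2 * k) → Fin k → ℂ} (hΛ : DifferentiableOn ℂ Λ D)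
    (m : Fin (2 * k) → ℤ)
    (hact : MDifferentiable 𝓘(ℂ, Fin (b + k) → ℂ) 𝓘(ℂ, Fin (b + k) → ℂ) (act (k := k) hD Λ m))
    (y : tube D hD k) : jac (b + k) (act hD Λ m) y = 1 := by
  obtain ⟨ψ, hψP, hψ, hψj⟩ := exists_extend hD y
  obtain ⟨h1, h2, h3⟩ := jac_shift hD hΛ (fun l => (m l : ℝ)) y.2
  have hψy : MDifferentiableAt 𝓘(ℂ, Fin (b + k) → ℂ) 𝓘(ℂ, Fin (b + k) → ℂ) ψ y.1 :=
    hψ.mdifferentiableAt ((tube D hD k).isOpen.mem_nhds y.2)
  have hev : act hD Λ m ∘ ψ =ᶠ[𝓝 y.1] ψ ∘ shift Λ (fun l => (m l : ℝ)) := by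
    filter_upwards [(tube D hD k).isOpen.mem_nhds y.2] with w hw
    have e1 : ψ w = ⟨w, hw⟩ := hψP ⟨w, hw⟩
    simp only [Function.comp_apply]
    rw [e1]
    exact (hψP (act hD Λ m ⟨w, hw⟩)).symm
  have e := jac_congr (n := b + k) hev
  rw [jac_comp (hact (ψ y.1)) hψy, jac_comp (hψ.mdifferentiableAt
    ((tube D hD k).isOpen.mem_nhds h2)) h1.mdifferentiableAt, h3, hψj _ h2, hψj _ y.2,
    hψP] at e
  simpa using e

theorem kahForm_shift {D : Set (Fin b → ℂ)} (hD : IsOpen D)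
    {Λ : (Fin b → ℂ) → Fin (2 * k) → Fin k → ℂ} (m : Fin (2 * k) → ℤ)
    (hact : MDifferentiable 𝓘(ℂ, Fin (b + k) → ℂ) 𝓘(ℂ, Fin (b + k) → ℂ) (act (k := k) hD Λ m))
    {g : tube D hD k → Matrix (Fin (b + k)) (Fin (b + k)) ℂ}
    (hg : InvMetric (b + k) (M := tube D hD k) g (act hD Λ m))
    {ψ : (Fin (b + k) → ℂ) → tube D hD k} (hψP : ∀ y : tube D hD k, ψ y.1 = y)
    (hψ : MDifferentiableOn 𝓘(ℂ, Fin (b + k) → ℂ) 𝓘(ℂ, Fin (b + k) → ℂ) ψ (tube D hD k))
    {v : Fin (b + k) → ℂ} (hv : v ∈ tube D hD k) (x y : Fin (b + k) → ℂ) :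
    kahForm (b + k) g (ψ ∘ shift Λ (fun l => (m l : ℝ))) v x y = kahForm (b + k) g ψ v x y := by
  have hψy : MDifferentiableAt 𝓘(ℂ, Fin (b + k) → ℂ) 𝓘(ℂ, Fin (b + k) → ℂ) ψ v :=
    hψ.mdifferentiableAt ((tube D hD k).isOpen.mem_nhds hv)
  have hev : ψ ∘ shift Λ (fun l => (m l : ℝ)) =ᶠ[𝓝 v] act hD Λ m ∘ ψ := by
    filter_upwards [(tube D hD k).isOpen.mem_nhds hv] with w hw
    have e1 : ψ w = ⟨w, hw⟩ := hψP ⟨w, hw⟩
    simp only [Function.comp_apply]
    rw [e1]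
    exact hψP (act hD Λ m ⟨w, hw⟩)
  have h := hg (ψ v) (mfderiv 𝓘(ℂ, Fin (b + k) → ℂ) 𝓘(ℂ, Fin (b + k) → ℂ) ψ v x)
    (mfderiv 𝓘(ℂ, Fin (b + k) → ℂ) 𝓘(ℂ, Fin (b + k) → ℂ) ψ v y)
  unfold kahForm
  rw [hev.mfderiv_eq, hev.eq_of_nhds, mfderiv_comp v (hact (ψ v)) hψy]
  exact congrArg Complex.im h

theorem orbSemiample_of_torus (P1 : StmtCosetLqOfMassMod.{0, v}) (P3 : StmtMassModOfFund.{v})
    {D : Set (Fin b → ℂ)} (hD : IsOpen D) (hDc : IsConnected D)
    (hDm : FiniteMassDomain D) {Λ : (Fin b → ℂ) → Fin (2 * k) → Fin k → ℂ}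
    (hΛ : LatticeFamily D Λ) (hK : KahlerTorusFamily hD Λ)
    {Γ : Type v} [Group Γ] [MulAction Γ (tube D hD k)] (hΓ : OrbAction (b + k) Γ (tube D hD k))
    (hlat : ∀ m : Fin (2 * k) → ℤ, ∃ γ : Γ, ∀ y : tube D hD k, γ • y = act hD Λ m y) :
    OrbSemiample (b + k) Γ (tube D hD k) := by
  classical
  obtain ⟨hΛd, hind⟩ := hΛ
  obtain ⟨g', ⟨hgpos', hgform'⟩, hginv'⟩ := hK
  let g : tube D hD k → Matrix (Fin (b + k)) (Fin (b + k)) ℂ := g'
  have hgpos : ∀ x, (g x).PosDef := hgpos'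
  have hgform : ∀ (V : Set (Fin (b + k) → ℂ)) (ψ : (Fin (b + k) → ℂ) → tube D hD k),
      HoloOn (b + k) ψ V → SmoothForm (b + k) (metricForm (b + k) g ψ) V ∧
        ClosedForm (b + k) (metricForm (b + k) g ψ) V := hgform'
  have hginv : ∀ m, InvMetric (b + k) g (act hD Λ m) := hginv'
  have hg : IsKahler (b + k) (tube D hD k) g :=
    ⟨hgpos, fun V ψ hV hψ => (hgform V ψ ⟨hV, hψ⟩).1, fun V ψ hV hψ => (hgform V ψ ⟨hV, hψ⟩).2⟩
  obtain ⟨z₁, hz₁⟩ := hDc.nonempty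
  let y₁ : tube D hD k := ⟨Fin.append z₁ 0, by
    change base (Fin.append z₁ 0) ∈ D
    rw [base_append]
    exact hz₁⟩
  have hact : ∀ m : Fin (2 * k) → ℤ, MDifferentiable 𝓘(ℂ, Fin (b + k) → ℂ)
      𝓘(ℂ, Fin (b + k) → ℂ) (act (k := k) hD Λ m) := by
    intro m
    obtain ⟨γ, hγ⟩ := hlat m
    have e : act hD Λ m = fun y : tube D hD k => γ • y := by
      funext y
      exact (hγ y).symm
    rw [e]
    exact hΓ.holo γ
  obtain ⟨ψ, hψP, hψ, hψj⟩ := exists_extend hD y₁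
  have hbd := fun z (hz : z ∈ D) => det_bound_inv hD hDc.isPreconnected hΛd hind hg hψ
    (fun v hv => by rw [hψj v hv]; exact one_ne_zero)
    (fun m v hv x y => kahForm_shift hD m (hact m) (hginv m) hψP hψ hv x y) hz₁ hz
  set a : (Fin b → ℂ) → ℂ := fun z => LinearMap.det (clin (latMap (hind z₁ hz₁) z)) with ha
  have had : DifferentiableOn ℂ a D := differentiableOn_det_clin hΛd _
  have ha0 : ∀ z ∈ D, a z ≠ 0 := fun z hz => (hbd z hz).1
  obtain ⟨hFm, hFint⟩ := fund_mass (k := k) hD hΛd.continuousOn hind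
  apply orbSemiample_of_pointwise hΓ
  intro y
  apply exists_invForm_of_Lq hΓ.holo
  obtain ⟨m, hm, s, hs, hs0, hsint⟩ := hDm (base y.1) y.2
  have hm0 : (0 : ℝ) < m := by exact_mod_cast hm
  -- the form
  let f : (Fin (b + k) → ℂ) → ℂ := fun v => s (base v) * (a (base v))⁻¹ ^ m
  have hmaps : Set.MapsTo (base : (Fin (b + k) → ℂ) → (Fin b → ℂ)) (tube D hD k) D :=
    fun v hv => hv
  have hf : DifferentiableOn ℂ f (tube D hD k) := by
    apply DifferentiableOn.mul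
    · exact hs.comp differentiable_base.differentiableOn hmaps
    · apply DifferentiableOn.pow
      exact (had.inv ha0).comp differentiable_base.differentiableOn hmaps
  have hη : IsPluriForm (b + k) (tube D hD k) m (fun y : tube D hD k => f y.1) :=
    isPluriForm_restrict _ hf
  -- its mass over the fundamental set
  have hFV : fund D Λ ⊆ (tube D hD k : Set (Fin (b + k) → ℂ)) := fun v hv => hv.1
  have hmass : ∫⁻ v in fund D Λ, ENNReal.ofReal (‖f v‖ ^ (2 / (m : ℝ))) < ⊤ := by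
    let G : (Fin b → ℂ) → ℝ≥0∞ := D.indicator fun z =>
      ENNReal.ofReal (‖s z * (a z)⁻¹ ^ m‖ ^ (2 / (m : ℝ)))
    have hGm : Measurable G := by
      have hc : ContinuousOn (fun z => ENNReal.ofReal (‖s z * (a z)⁻¹ ^ m‖ ^ (2 / (m : ℝ)))) D := by
        apply ENNReal.continuous_ofReal.comp_continuousOn
        apply ContinuousOn.rpow_const
        · exact (hs.continuousOn.mul (((had.continuousOn).inv₀ ha0).pow m)).norm
        · intro z _
          exact Or.inr (by positivity)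
      exact hc.measurable_piecewise continuousOn_const hD.measurableSet
    have h1 : ∫⁻ v in fund D Λ, ENNReal.ofReal (‖f v‖ ^ (2 / (m : ℝ))) =
        ∫⁻ v in fund D Λ, G (base v) := by
      apply setLIntegral_congr_fun hFm
      intro v hv
      have hvD : base v ∈ D := hv.1
      change _ = G (base v)
      rw [show G (base v) = ENNReal.ofReal (‖s (base v) * (a (base v))⁻¹ ^ m‖ ^ (2 / (m : ℝ)))
        from Set.indicator_of_mem hvD _]
    rw [h1, hFint G hGm]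
    set v₁ := volume ((fun θ : Fin (2 * k) → ℝ => comb Λ z₁ θ) ''
      (Set.pi Set.univ fun _ => Set.Ico (0 : ℝ) 1)) with hv₁
    have hv₁t : v₁ < ⊤ := volume_cube_lt_top z₁
    calc ∫⁻ z in D, G z * volume ((fun θ : Fin (2 * k) → ℝ => comb Λ z θ) ''
          (Set.pi Set.univ fun _ => Set.Ico (0 : ℝ) 1))
        ≤ ∫⁻ z in D, ENNReal.ofReal (‖s z‖ ^ (2 / (m : ℝ))) * v₁ := by
          apply setLIntegral_mono_ae'
          · exact hD.measurableSet
          · filter_upwards with z hz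
            have hG : G z = ENNReal.ofReal (‖s z * (a z)⁻¹ ^ m‖ ^ (2 / (m : ℝ))) :=
              Set.indicator_of_mem hz _
            have hvol := volume_cube_le (hind z₁ hz₁) z
              (Set.pi Set.univ fun _ => Set.Ico (0 : ℝ) 1) (hbd z hz).2
            have haz : 0 < ‖a z‖ := norm_pos_iff.2 (ha0 z hz)
            have e1 : ‖s z * (a z)⁻¹ ^ m‖ ^ (2 / (m : ℝ)) =
                ‖s z‖ ^ (2 / (m : ℝ)) * (‖a z‖ ^ 2)⁻¹ := by
              rw [norm_mul, Real.mul_rpow (norm_nonneg _) (norm_nonneg _), norm_pow, norm_inv,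
                ← Real.rpow_natCast, ← Real.rpow_mul (by positivity)]
              congr 1
              rw [mul_div_cancel₀ _ hm0.ne', Real.inv_rpow haz.le]
              norm_num
            rw [hG, e1]
            calc ENNReal.ofReal (‖s z‖ ^ (2 / (m : ℝ)) * (‖a z‖ ^ 2)⁻¹) *
                  volume ((fun θ : Fin (2 * k) → ℝ => comb Λ z θ) ''
                    (Set.pi Set.univ fun _ => Set.Ico (0 : ℝ) 1))
                ≤ ENNReal.ofReal (‖s z‖ ^ (2 / (m : ℝ)) * (‖a z‖ ^ 2)⁻¹) *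
                  (ENNReal.ofReal (‖a z‖ ^ 2) * v₁) := by gcongr
              _ = ENNReal.ofReal (‖s z‖ ^ (2 / (m : ℝ))) * v₁ := by
                  rw [← mul_assoc, ← ENNReal.ofReal_mul (by positivity)]
                  congr 2
                  field_simp
      _ = (∫⁻ z in D, ENNReal.ofReal (‖s z‖ ^ (2 / (m : ℝ)))) * v₁ := by
          rw [lintegral_mul_const']
          exact hv₁t.ne
      _ < ⊤ := ENNReal.mul_lt_top hsint hv₁t
  -- invariance under the lattice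
  have hinv : InvForm (b + k) (latSub hD Λ Γ) m (fun y : tube D hD k => f y.1) := by
    refine ⟨hη, ?_⟩
    rintro γ ⟨m', hm'⟩ x
    have e : (fun y : tube D hD k => γ • y) = act hD Λ m' := funext hm'
    have hb : base (γ • x : tube D hD k).1 = base x.1 := by
      rw [hm']
      exact base_shift _ _ _
    rw [e, jac_act hD hΛd m' (hact m'), one_pow, mul_one]
    simp only [f, hb]
  obtain ⟨e, he⟩ := exists_surjective_nat (Fin (2 * k) → ℤ)
  choose γl hγl using hlat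
  have hγe : ∀ j : ℕ, γl (e j) ∈ latSub hD Λ Γ := fun j => ⟨e j, hγl (e j)⟩
  have hMass : MassMod (b + k) (latSub hD Λ Γ) m (fun y : tube D hD k => f y.1) := by
    refine P3 hm (tube D hD k) hΓ.holo (F := fund D Λ) hFm hFV (fun j => γl (e j))
      hγe ?_ ?_ hf hmass hinv
    · intro y
      obtain ⟨m', hm', -⟩ := existsUnique_act hD hind y
      obtain ⟨j, hj⟩ := he m'
      refine ⟨j, ?_⟩
      rw [hj, hγl]
      exact hm'
    · rintro y y' hy hy' γ ⟨m', hm'⟩ rfl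
      obtain ⟨m₀, -, hu⟩ := existsUnique_act hD hind y
      have h0 := hu 0 (by
        change act hD Λ 0 y ∈ _
        rw [act_zero]
        exact hy)
      have h1 := hu m' (by
        change act hD Λ m' y ∈ _
        rw [← hm']
        exact hy')
      rw [hm', h1, ← h0, act_zero]
  exact ⟨latSub hD Λ Γ, m, 2 / (m : ℝ), fun y => f y.1, hm, by positivity, hinv,
    P1 hm hΓ hinv hMass, mul_ne_zero hs0 (pow_ne_zero _ (inv_ne_zero (ha0 _ y.2)))⟩

end Pool.Agent.Helper92.Orb
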