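import Pool.Agent.Helper16.Abund.Defs

/-!
Quotients `X = M/Γ` of a complex manifold `M` by a group `Γ` acting properly discontinuously (points
may have non-trivial stabilizers, so that `X` may be singular) with compact quotient, and invariant
pluricanonical forms.
-/

open scoped Manifold ContDiff ENNReal Topology
open MeasureTheory

namespace Pool.Agent.Helper92.Orb

open Pool.Agent.Helper16.Abund

/-- The group `Γ` acts on the complex manifold `M` by holomorphic maps, properly discontinuously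
(stabilizers are allowed) and with compact quotient. -/
structure OrbAction (n : ℕ) (Γ M : Type*) [Group Γ] [MulAction Γ M] [TopologicalSpace M]
    [ChartedSpace (Fin n → ℂ) M] : Prop where
  holo : ∀ γ : Γ, MDifferentiable 𝓘(ℂ, Fin n → ℂ) 𝓘(ℂ, Fin n → ℂ) (fun x : M => γ • x)
  proper : ∀ x : M, ∃ U ∈ 𝓝 x, {γ : Γ | ∃ y ∈ U, γ • y ∈ U}.Finite
  cocompact : ∃ K : Set M, IsCompact K ∧ ∀ x : M, ∃ γ : Γ, γ • x ∈ K

/-- `c` is an `m`-canonical form on `M` which is invariant under the subgroup `H`: `h^* c = c` for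
all `h ∈ H`. -/
def InvForm (n : ℕ) {Γ M : Type*} [Group Γ] [MulAction Γ M] [TopologicalSpace M]
    [ChartedSpace (Fin n → ℂ) M] (H : Subgroup Γ) (m : ℕ) (c : M → ℂ) : Prop :=
  IsPluriForm n M m c ∧
    ∀ γ ∈ H, ∀ x : M, c (γ • x) * jac n (fun y : M => γ • y) x ^ m = c x

/-- For some `r ≥ 1` the `Γ`-invariant `r`-canonical forms on `M` have no common zero. -/
def OrbSemiample (n : ℕ) (Γ M : Type*) [Group Γ] [MulAction Γ M] [TopologicalSpace M]
    [ChartedSpace (Fin n → ℂ) M] : Prop :=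
  ∃ r : ℕ, 1 ≤ r ∧ ∀ x : M, ∃ c : M → ℂ, InvForm n (⊤ : Subgroup Γ) r c ∧ c x ≠ 0

/-- The translate of the `m`-canonical form `η` by `γ`: its pull back under `γ⁻¹`. -/
noncomputable def translate (n : ℕ) {Γ M : Type*} [Group Γ] [MulAction Γ M] [TopologicalSpace M]
    [ChartedSpace (Fin n → ℂ) M] (m : ℕ) (η : M → ℂ) (γ : Γ) (x : M) : ℂ :=
  η (γ⁻¹ • x) * jac n (fun y : M => γ⁻¹ • y) x ^ m

/-- The `H`-invariant `m`-canonical form `η` is `L^q` over `X = M/Γ`: near every point `x₀` of `M`,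
in the chart `z = chartAt x₀`, the sum over the cosets `γH` of the `q`-th powers of the absolute
values of the coefficients of the translates `(γ⁻¹)^* η` with respect to `(dz)^m` is integrable. -/
def CosetLq (n : ℕ) {Γ M : Type*} [Group Γ] [MulAction Γ M] [TopologicalSpace M]
    [ChartedSpace (Fin n → ℂ) M] (H : Subgroup Γ) (m : ℕ) (q : ℝ) (η : M → ℂ) : Prop :=
  ∀ x₀ : M, ∃ r : ℝ, 0 < r ∧
    Metric.ball (chartAt (Fin n → ℂ) x₀ x₀) r ⊆ (chartAt (Fin n → ℂ) x₀).target ∧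
    ∫⁻ z in Metric.ball (chartAt (Fin n → ℂ) x₀ x₀) r, ∑' c : Γ ⧸ H,
      ENNReal.ofReal (‖translate n m η c.out ((chartAt (Fin n → ℂ) x₀).symm z) *
        jac n (chartAt (Fin n → ℂ) x₀).symm z ^ m‖ ^ q) < ⊤

/-- The total mass `∫ |η|^{2/m}` of the `H`-invariant `m`-canonical form `η` over `M/H` is finite:
the masses over finitely many measurable coordinate pieces of `M`, which together contain at most
one point of each `H`-orbit, are bounded by one constant. -/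
def MassMod (n : ℕ) {Γ M : Type*} [Group Γ] [MulAction Γ M] [TopologicalSpace M]
    [ChartedSpace (Fin n → ℂ) M] (H : Subgroup Γ) (m : ℕ) (η : M → ℂ) : Prop :=
  ∃ C : ℝ, ∀ (N : ℕ) (A V : Fin N → Set (Fin n → ℂ)) (ψ : Fin N → (Fin n → ℂ) → M),
    (∀ i, MeasurableSet (A i)) → (∀ i, IsOpen (V i)) → (∀ i, A i ⊆ V i) →
    (∀ i, MDifferentiableOn 𝓘(ℂ, Fin n → ℂ) 𝓘(ℂ, Fin n → ℂ) (ψ i) (V i)) →
    (∀ i j, ∀ z ∈ A i, ∀ w ∈ A j, ∀ h ∈ H, ψ j w = h • ψ i z → i = j ∧ z = w) →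
    ∑ i, ∫⁻ z in A i, ENNReal.ofReal (‖η (ψ i z) * jac n (ψ i) z ^ m‖ ^ (2 / (m : ℝ)))
      ≤ ENNReal.ofReal C

/-- Some `m`-canonical form on `M`, `m ≥ 1`, invariant under some subgroup `H` of `Γ` (of any
index), is not zero at `x` and is `L^q` over `M/Γ` for some `q > 0`. -/
def LqGeneratedAt (n : ℕ) (Γ : Type*) {M : Type*} [Group Γ] [MulAction Γ M] [TopologicalSpace M]
    [ChartedSpace (Fin n → ℂ) M] (x : M) : Prop :=
  ∃ (H : Subgroup Γ) (m : ℕ) (q : ℝ) (η : M → ℂ), 1 ≤ m ∧ 0 < q ∧ InvForm n H m η ∧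
    CosetLq n H m q η ∧ η x ≠ 0

/-- Some `m`-canonical form on `M`, `m ≥ 1`, invariant under some subgroup `H` of `Γ` (of any
index), is not zero at `x` and has finite mass over `M/H`. -/
def MassGeneratedAt (n : ℕ) (Γ : Type*) {M : Type*} [Group Γ] [MulAction Γ M] [TopologicalSpace M]
    [ChartedSpace (Fin n → ℂ) M] (x : M) : Prop :=
  ∃ (H : Subgroup Γ) (m : ℕ) (η : M → ℂ), 1 ≤ m ∧ InvForm n H m η ∧ MassMod n H m η ∧ η x ≠ 0

universe u v

/-- Transfer from a compact orbifold: there are a subgroup `H` of `Γ` (of any index), a compact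
quotient `Z/Δ` of a complex `n`-manifold `Z`, a holomorphic map `g : M → Z` carrying `H`-orbits into
`Δ`-orbits (`g (h x) = φ(h) g(x)`) such that each fibre of `M/H → Z/Δ` has at most `N` points, and a
`Δ`-invariant `m`-canonical form `s` on `Z`, `m ≥ 1`, such that `g` is unramified at `x` and `s` is
not zero at `g(x)`. -/
def TransferAt (n : ℕ) (Γ : Type v) {M : Type u} [Group Γ] [MulAction Γ M] [TopologicalSpace M]
    [ChartedSpace (Fin n → ℂ) M] (x : M) : Prop :=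
  ∃ (H : Subgroup Γ) (Δ : Type v) (Z : Type u) (_ : Group Δ) (_ : MulAction Δ Z)
    (_ : TopologicalSpace Z) (_ : ChartedSpace (Fin n → ℂ) Z)
    (_ : IsManifold 𝓘(ℂ, Fin n → ℂ) ω Z) (g : M → Z) (φ : Γ → Δ) (m N : ℕ) (s : Z → ℂ),
    OrbAction n Δ Z ∧ MDifferentiable 𝓘(ℂ, Fin n → ℂ) 𝓘(ℂ, Fin n → ℂ) g ∧
    (∀ h ∈ H, ∀ y : M, g (h • y) = φ h • g y) ∧
    (∀ (z : Z) (T : Finset M), (∀ y ∈ T, ∃ δ : Δ, g y = δ • z) →
      (∀ y ∈ T, ∀ y' ∈ T, ∀ h ∈ H, y' = h • y → y = y') → T.card ≤ N) ∧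
    1 ≤ m ∧ InvForm n (⊤ : Subgroup Δ) m s ∧ jac n g x ≠ 0 ∧ s (g x) ≠ 0

end Pool.Agent.Helper92.Orb
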