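import Pool.Agent.Helper92.Orb.Defs
import Pool.Agent.Helper16.Abund.Semi

/-!
Sums of `k`-th powers of an `L^q` family of pluricanonical forms.
-/

open scoped Manifold ContDiff ENNReal Topology
open MeasureTheory Metric

namespace Pool.Agent.Helper92.Orb

open Pool.Agent.Helper16.Abund
open Pool.Agent.Helper49.Abund (mean_rpow)

variable {n : ℕ} {M : Type*} [TopologicalSpace M] [ChartedSpace (Fin n → ℂ) M]

/-- A family of `m`-canonical forms is locally `L^q`. -/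
def FamLq (n : ℕ) {M : Type*} [TopologicalSpace M] [ChartedSpace (Fin n → ℂ) M] {ι : Type*}
    (m : ℕ) (q : ℝ) (f : ι → M → ℂ) : Prop :=
  ∀ x₀ : M, ∃ r : ℝ, 0 < r ∧
    Metric.ball (chartAt (Fin n → ℂ) x₀ x₀) r ⊆ (chartAt (Fin n → ℂ) x₀).target ∧
    ∫⁻ z in Metric.ball (chartAt (Fin n → ℂ) x₀ x₀) r, ∑' i,
      ENNReal.ofReal (‖f i ((chartAt (Fin n → ℂ) x₀).symm z) *
        jac n (chartAt (Fin n → ℂ) x₀).symm z ^ m‖ ^ q) < ⊤

/-- Uniform `ℓ^q` bound in the chart at `x₀`. -/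
theorem exists_bound_fam [IsManifold 𝓘(ℂ, Fin n → ℂ) ω M] {ι : Type*} {m : ℕ}
    {f : ι → M → ℂ} (hf : ∀ i, IsPluriForm n M m (f i)) {q : ℝ} (hq : 0 < q)
    (hLq : FamLq n m q f) (x₀ : M) :
    ∃ r : ℝ, 0 < r ∧ ∃ u : ι → ℝ, Summable u ∧ (∀ i, 0 ≤ u i) ∧
      ∀ z ∈ ball (chartAt (Fin n → ℂ) x₀ x₀) r, z ∈ (chartAt (Fin n → ℂ) x₀).target ∧
        ∀ i, ‖f i ((chartAt (Fin n → ℂ) x₀).symm z) *
          jac n (chartAt (Fin n → ℂ) x₀).symm z ^ m‖ ^ q ≤ u i := by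
  classical
  set χ := chartAt (Fin n → ℂ) x₀ with hχ
  obtain ⟨r₀, hr₀, hsub, hint⟩ := hLq x₀
  rw [← hχ] at hsub hint
  set r : ℝ := r₀ / 2 with hr
  have hrpos : 0 < r := by rw [hr]; positivity
  have h2r0 : 2 * r = r₀ := by rw [hr]; ring
  let g : ι → (Fin n → ℂ) → ℂ := fun i z => f i (χ.symm z) * jac n χ.symm z ^ m
  have hg : ∀ i, DifferentiableOn ℂ (g i) (ball (χ x₀) (2 * r)) := by
    intro i
    rw [h2r0]
    exact hf i _ χ.symm isOpen_ball ((mdiff_chart_symm x₀).mono hsub)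
  let J : ι → ℝ≥0∞ := fun i => ∫⁻ z in ball (χ x₀) (2 * r), ENNReal.ofReal (‖g i z‖ ^ q)
  have hmeas : ∀ i, AEMeasurable (fun z => ENNReal.ofReal (‖g i z‖ ^ q))
      (volume.restrict (ball (χ x₀) (2 * r))) := by
    intro i
    have h1 : ContinuousOn (fun z => ‖g i z‖ ^ q) (ball (χ x₀) (2 * r)) := by
      apply ContinuousOn.rpow_const
      · exact (hg i).continuousOn.norm
      · intro z _
        exact Or.inr hq.le
    exact (h1.aemeasurable measurableSet_ball).ennreal_ofReal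
  have hJ : ∑' i, J i < ⊤ := by
    refine lt_of_le_of_lt ?_ hint
    rw [← h2r0, ENNReal.tsum_eq_iSup_sum]
    apply iSup_le
    intro s
    rw [← lintegral_finsetSum' s fun i _ => hmeas i]
    apply lintegral_mono
    intro z
    exact ENNReal.sum_le_tsum s
  set v : ℝ≥0∞ := volume (ball (χ x₀) r) with hv
  have hv0 : v ≠ 0 := (volume_ball_pos _ hrpos).ne'
  have hvt : v ≠ ⊤ := measure_ball_lt_top.ne
  have hJi : ∀ i, J i ≠ ⊤ := fun i => ((ENNReal.le_tsum i).trans_lt hJ).ne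
  refine ⟨r, hrpos, fun i => (J i / v).toReal, ?_, fun i => ENNReal.toReal_nonneg, ?_⟩
  · apply ENNReal.summable_toReal
    have : ∑' i, J i / v = (∑' i, J i) / v := by
      simp only [div_eq_mul_inv]
      rw [ENNReal.tsum_mul_right]
    rw [this]
    exact (ENNReal.div_lt_top hJ.ne hv0).ne
  · intro z hz
    have hz2 : z ∈ ball (χ x₀) (2 * r) := ball_subset_ball (by linarith) hz
    refine ⟨hsub (by rw [← h2r0]; exact hz2), ?_⟩
    intro i
    change ‖g i z‖ ^ q ≤ (J i / v).toReal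
    have hsubz : ball z r ⊆ ball (χ x₀) (2 * r) := by
      apply ball_subset_ball'
      have := (mem_ball.1 hz).le
      linarith
    have h1 := mean_rpow hrpos ((hg i).mono hsubz) hq
    rw [volume_ball_eq z (χ x₀) r, ← hv] at h1
    have h2 : ENNReal.ofReal (‖g i z‖ ^ q) * v ≤ J i := h1.trans (lintegral_mono_set hsubz)
    have h3 : ENNReal.ofReal (‖g i z‖ ^ q) ≤ J i / v := by
      rw [ENNReal.le_div_iff_mul_le (Or.inl hv0) (Or.inl hvt)]
      exact h2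
    have h4 : J i / v ≠ ⊤ := (ENNReal.div_lt_top (hJi i) hv0).ne
    exact (ENNReal.ofReal_le_iff_le_toReal h4).1 h3

/-- The sum of the `k`-th powers, `k ≥ q`, of an `L^q` family is a pluricanonical form. -/
theorem isPluriForm_tsum_pow [IsManifold 𝓘(ℂ, Fin n → ℂ) ω M] {ι : Type*} {m : ℕ}
    {f : ι → M → ℂ} (hf : ∀ i, IsPluriForm n M m (f i)) {q : ℝ} (hq : 0 < q)
    (hLq : FamLq n m q f) {k : ℕ} (hk : q ≤ k) :
    IsPluriForm n M (m * k) (fun x => ∑' i, f i x ^ k) := by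
  classical
  intro V ψ hV hψ z₀ hz₀
  set x₀ := ψ z₀ with hx₀
  obtain ⟨r, hr, u, hu, hu0, hb⟩ := exists_bound_fam hf hq hLq x₀
  set χ := chartAt (Fin n → ℂ) x₀ with hχ
  have hψc : ContinuousAt ψ z₀ := (hψ.mdifferentiableAt (hV.mem_nhds hz₀)).continuousAt
  have hsrc : ∀ᶠ z in 𝓝 z₀, ψ z ∈ χ.source :=
    hψc.preimage_mem_nhds (χ.open_source.mem_nhds (mem_chart_source _ x₀))
  obtain ⟨V₁, hV₁sub, hV₁o, hz₀V₁⟩ := _root_.mem_nhds_iff.1
    (Filter.inter_mem (hV.mem_nhds hz₀) hsrc)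
  have hψ₁ : MDifferentiableOn 𝓘(ℂ, Fin n → ℂ) 𝓘(ℂ, Fin n → ℂ) ψ V₁ :=
    hψ.mono fun z hz => (hV₁sub hz).1
  have hψat : ∀ z ∈ V₁, MDifferentiableAt 𝓘(ℂ, Fin n → ℂ) 𝓘(ℂ, Fin n → ℂ) ψ z :=
    fun z hz => hψ₁.mdifferentiableAt (hV₁o.mem_nhds hz)
  have hχat : ∀ z ∈ V₁, MDifferentiableAt 𝓘(ℂ, Fin n → ℂ) 𝓘(ℂ, Fin n → ℂ) χ (ψ z) :=
    fun z hz => (mdiff_chart x₀).mdifferentiableAt (χ.open_source.mem_nhds (hV₁sub hz).2)
  have hχψ : ∀ z ∈ V₁, MDifferentiableAt 𝓘(ℂ, Fin n → ℂ) 𝓘(ℂ, Fin n → ℂ) (χ ∘ ψ) z :=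
    fun z hz => (hχat z hz).comp z (hψat z hz)
  have hh : DifferentiableOn ℂ (χ ∘ ψ) V₁ := fun z hz =>
    (hχψ z hz).differentiableAt.differentiableWithinAt
  obtain ⟨C, hC, hCb⟩ := exists_jac_bound hV₁o hh hz₀V₁
  have hballn : ∀ᶠ z in 𝓝 z₀, (χ ∘ ψ) z ∈ ball (χ x₀) r :=
    (hχψ z₀ hz₀V₁).continuousAt.preimage_mem_nhds (isOpen_ball.mem_nhds (mem_ball_self hr))
  obtain ⟨W, hWsub, hWo, hz₀W⟩ := _root_.mem_nhds_iff.1
    (Filter.inter_mem (hV₁o.mem_nhds hz₀V₁) (hCb.and hballn))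
  let H : ι → (Fin n → ℂ) → ℂ := fun i z => (f i (ψ z) * jac n ψ z ^ m) ^ k
  have hHd : ∀ i, DifferentiableOn ℂ (H i) W := by
    intro i
    exact (hf i W ψ hWo (hψ₁.mono fun z hz => (hWsub hz).1)).pow k
  have hHb : ∀ i, ∀ z ∈ W, ‖H i z‖ ≤ C ^ (m * k) * u i ^ ((k : ℝ) / q) := by
    intro i z hz
    have hzV := (hWsub hz).1
    have hzs := (hV₁sub hzV).2
    have hzb : χ (ψ z) ∈ ball (χ x₀) r := (hWsub hz).2.2
    obtain ⟨ht, hbi⟩ := hb _ hzb
    have hb' := hbi i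
    rw [χ.left_inv hzs] at hb'
    -- chain rule
    have e1 : jac n ψ z = jac n χ.symm (χ (ψ z)) * jac n (χ ∘ ψ) z := by
      have hs : MDifferentiableAt 𝓘(ℂ, Fin n → ℂ) 𝓘(ℂ, Fin n → ℂ) χ.symm ((χ ∘ ψ) z) :=
        (mdiff_chart_symm x₀).mdifferentiableAt (χ.open_target.mem_nhds ht)
      refine Eq.trans ?_ (jac_comp hs (hχψ z hzV))
      apply jac_congr
      filter_upwards [hV₁o.mem_nhds hzV] with w hw
      simp only [Function.comp_apply]
      rw [χ.left_inv (hV₁sub hw).2]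
    have e2 : H i z = (f i (ψ z) * jac n χ.symm (χ (ψ z)) ^ m) ^ k *
        jac n (χ ∘ ψ) z ^ (m * k) := by
      simp only [H]
      rw [e1, mul_pow _ _ m, pow_mul, ← mul_pow _ _ k]
      congr 1
      ring
    rw [e2, norm_mul, norm_pow, norm_pow, mul_comm]
    apply mul_le_mul
    · exact pow_le_pow_left₀ (norm_nonneg _) (hWsub hz).2.1 _
    · exact norm_pow_le_rpow (norm_nonneg _) hq hb' k
    · positivity
    · positivity
  have hk1 : 1 ≤ (k : ℝ) / q := by rwa [one_le_div hq]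
  have hsum : Summable fun i => C ^ (m * k) * u i ^ ((k : ℝ) / q) :=
    (summable_rpow_of_one_le hu hu0 hk1).mul_left _
  have hD := differentiableOn_tsum hWo hHd hsum hHb
  have hDat : DifferentiableAt ℂ (fun z => ∑' i, H i z) z₀ :=
    hD.differentiableAt (hWo.mem_nhds hz₀W)
  have hev : (fun z => (∑' i, f i (ψ z) ^ k) * jac n ψ z ^ (m * k)) = fun z => ∑' i, H i z := by
    funext z
    rw [← tsum_mul_right]
    congr 1
    funext i
    simp only [H]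
    rw [pow_mul, ← mul_pow]
  change DifferentiableWithinAt ℂ (fun z => (∑' i, f i (ψ z) ^ k) * jac n ψ z ^ (m * k)) V z₀
  rw [hev]
  exact hDat.differentiableWithinAt

/-- The values of an `L^q` family at a point form an `ℓ^q` family. -/
theorem summable_fam [IsManifold 𝓘(ℂ, Fin n → ℂ) ω M] {ι : Type*} {m : ℕ}
    {f : ι → M → ℂ} (hf : ∀ i, IsPluriForm n M m (f i)) {q : ℝ} (hq : 0 < q)
    (hLq : FamLq n m q f) (x : M) : Summable fun i => ‖f i x‖ ^ q := by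
  obtain ⟨r, hr, u, hu, hu0, hb⟩ := exists_bound_fam hf hq hLq x
  set χ := chartAt (Fin n → ℂ) x with hχ
  obtain ⟨ht, hbi⟩ := hb _ (mem_ball_self hr)
  have hxs : x ∈ χ.source := mem_chart_source _ x
  have hbase : jac n χ.symm (χ x) ≠ 0 := jac_chart_symm_ne_zero x ht
  set J : ℝ := ‖jac n χ.symm (χ x) ^ m‖ ^ q with hJ
  have hJ0 : 0 < J := by
    apply Real.rpow_pos_of_pos
    exact norm_pos_iff.2 (pow_ne_zero _ hbase)
  have hsum : Summable fun i => J⁻¹ * u i := hu.mul_left _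
  refine Summable.of_nonneg_of_le (fun i => by positivity) (fun i => ?_) hsum
  have h1 := hbi i
  rw [χ.left_inv hxs, norm_mul, Real.mul_rpow (norm_nonneg _) (norm_nonneg _), ← hJ] at h1
  rw [inv_mul_eq_div, le_div_iff₀ hJ0]
  exact h1

end Pool.Agent.Helper92.Orb
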